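import Mathlib

set_option autoImplicit false

namespace Pool.Agent.Results.MP_efcf90_co.NoRank

/-- Additive posets: an abelian group with a partial order `le` satisfying the two axioms. -/
structure AddPoset (A : Type) [AddCommGroup A] (le : A → A → Prop) : Prop where
  refl : ∀ a, le a a
  antisymm : ∀ a b, le a b → le b a → a = b
  trans : ∀ a b c, le a b → le b c → le a c
  down : ∀ a b c, le b a → le c a → le (b + c) a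
  up : ∀ a b c, le a b → le a c → le a (a + b + c)

/-- The alternating sum `∑_{∅ ≠ J ⊆ K} (-1)^(|J|+1) r (∑ J)`. -/
def alt {A : Type} [AddCommGroup A] [DecidableEq A] (r : A → ℕ) (K : Finset A) : ℤ :=
  ∑ J ∈ K.powerset.erase ∅, (-1) ^ (J.card + 1) * (r (∑ a ∈ J, a) : ℤ)

/-- Ranks of an additive poset. -/
def IsRank {A : Type} [AddCommGroup A] [DecidableEq A] (le : A → A → Prop) (r : A → ℕ) : Prop :=
  (∀ a, r a = 0 ↔ a = 0) ∧ (∀ a b, le a (a + b) → r (a + b) = r a + r b) ∧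
    ∀ K : Finset A, K.Nonempty → 0 ≤ alt r K ∧ (2 : ℤ) ^ (K.card - 1) ∣ alt r K

abbrev V : Type := ZMod 2 × ZMod 2 × ZMod 2 × ZMod 2

def cd (a : V) : ℕ := a.1.val + 2 * a.2.1.val + 4 * a.2.2.1.val + 8 * a.2.2.2.val

def leb (a b : V) : Bool :=
  cd a == 0 || cd a == cd b || [18, 50, 92, 156, 78, 174, 109, 189, 127, 143].contains (16 * cd a + cd b)

theorem ap : AddPoset V fun a b => leb a b = true :=
  ⟨by decide +kernel, by decide +kernel, by decide +kernel, by decide +kernel, by decide +kernel⟩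

theorem four (r : V → ℕ) (h0 : r 0 = 0) (h : ∀ K : Finset V, K.Nonempty → 0 ≤ alt r K) (a b c d : V)
    (hd : a ≠ b ∧ a ≠ c ∧ a ≠ d ∧ b ≠ c ∧ b ≠ d ∧ c ≠ d) (ab ac ad bc bd cd abc abd acd bcd abcd : V)
    (he : a + b = ab ∧ a + c = ac ∧ a + d = ad ∧ b + c = bc ∧ b + d = bd ∧ c + d = cd ∧
      a + (b + c) = abc ∧ a + (b + d) = abd ∧ a + (c + d) = acd ∧ b + (c + d) = bcd ∧
      a + (b + (c + d)) = abcd) :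
    r ab + r ac + r ad + r bc + r bd + r cd + r abcd ≤
      r a + r b + r c + r d + r abc + r abd + r acd + r bcd := by
  obtain ⟨h1, h2, h3, h4, h5, h6⟩ := hd
  obtain ⟨rfl, rfl, rfl, rfl, rfl, rfl, rfl, rfl, rfl, rfl, rfl⟩ := he
  have := h (insert a (insert b (insert c (insert d ∅)))) (by simp)
  have ha : a ∉ (insert b (insert c (insert d ∅)) : Finset V) := by simp [h1, h2, h3]
  have hb : b ∉ (insert c (insert d ∅) : Finset V) := by simp [h4, h5]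
  have hc : c ∉ (insert d ∅ : Finset V) := by simp [h6]
  rw [alt, Finset.sum_erase _ (by simp [h0])] at this
  simp only [Finset.sum_powerset_insert ha, Finset.sum_powerset_insert hb,
    Finset.sum_powerset_insert hc, Finset.sum_powerset_insert (Finset.notMem_empty d),
    Finset.powerset_empty, Finset.sum_singleton] at this
  simp [h0, h1, h2, h3, h4, h5, h6] at this
  omega

theorem result : ∃ (A : Type) (_ : AddCommGroup A) (_ : DecidableEq A) (le : A → A → Prop),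
    Finite A ∧ AddPoset A le ∧ ¬ ∃ r : A → ℕ, IsRank le r := by
  refine ⟨V, inferInstance, inferInstance, _, inferInstance, ap, fun ⟨r, h1, h2, h3⟩ => ?_⟩
  have h0 : r 0 = 0 := (h1 0).2 rfl
  have n0 := four r h0 (fun K hK => (h3 K hK).1) (1, 0, 0, 0) (1, 1, 0, 0) (1, 0, 1, 0) (1, 0, 0, 1) (by decide)
    (0, 1, 0, 0) (0, 0, 1, 0) (0, 0, 0, 1) (0, 1, 1, 0) (0, 1, 0, 1) (0, 0, 1, 1)
    (1, 1, 1, 0) (1, 1, 0, 1) (1, 0, 1, 1) (1, 1, 1, 1) (0, 1, 1, 1) (by decide)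
  have n1 := four r h0 (fun K hK => (h3 K hK).1) (0, 1, 0, 0) (1, 1, 0, 0) (0, 1, 1, 0) (0, 1, 0, 1) (by decide)
    (1, 0, 0, 0) (0, 0, 1, 0) (0, 0, 0, 1) (1, 0, 1, 0) (1, 0, 0, 1) (0, 0, 1, 1)
    (1, 1, 1, 0) (1, 1, 0, 1) (0, 1, 1, 1) (1, 1, 1, 1) (1, 0, 1, 1) (by decide)
  have n2 := four r h0 (fun K hK => (h3 K hK).1) (1, 0, 0, 0) (0, 1, 0, 0) (1, 0, 1, 0) (1, 0, 0, 1) (by decide)
    (1, 1, 0, 0) (0, 0, 1, 0) (0, 0, 0, 1) (1, 1, 1, 0) (1, 1, 0, 1) (0, 0, 1, 1)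
    (0, 1, 1, 0) (0, 1, 0, 1) (1, 0, 1, 1) (0, 1, 1, 1) (1, 1, 1, 1) (by decide)
  have n3 := four r h0 (fun K hK => (h3 K hK).1) (0, 0, 1, 0) (1, 0, 1, 0) (0, 1, 1, 0) (0, 0, 1, 1) (by decide)
    (1, 0, 0, 0) (0, 1, 0, 0) (0, 0, 0, 1) (1, 1, 0, 0) (1, 0, 0, 1) (0, 1, 0, 1)
    (1, 1, 1, 0) (1, 0, 1, 1) (0, 1, 1, 1) (1, 1, 1, 1) (1, 1, 0, 1) (by decide)
  have n4 := four r h0 (fun K hK => (h3 K hK).1) (1, 0, 0, 0) (1, 1, 0, 0) (0, 0, 1, 0) (1, 0, 0, 1) (by decide)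
    (0, 1, 0, 0) (1, 0, 1, 0) (0, 0, 0, 1) (1, 1, 1, 0) (0, 1, 0, 1) (1, 0, 1, 1)
    (0, 1, 1, 0) (1, 1, 0, 1) (0, 0, 1, 1) (0, 1, 1, 1) (1, 1, 1, 1) (by decide)
  have n5 := four r h0 (fun K hK => (h3 K hK).1) (0, 1, 0, 0) (1, 1, 0, 0) (0, 0, 1, 0) (0, 1, 0, 1) (by decide)
    (1, 0, 0, 0) (0, 1, 1, 0) (0, 0, 0, 1) (1, 1, 1, 0) (1, 0, 0, 1) (0, 1, 1, 1)
    (1, 0, 1, 0) (1, 1, 0, 1) (0, 0, 1, 1) (1, 0, 1, 1) (1, 1, 1, 1) (by decide)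
  have n6 := four r h0 (fun K hK => (h3 K hK).1) (1, 0, 0, 0) (0, 1, 0, 0) (0, 0, 1, 0) (1, 0, 0, 1) (by decide)
    (1, 1, 0, 0) (1, 0, 1, 0) (0, 0, 0, 1) (0, 1, 1, 0) (1, 1, 0, 1) (1, 0, 1, 1)
    (1, 1, 1, 0) (0, 1, 0, 1) (0, 0, 1, 1) (1, 1, 1, 1) (0, 1, 1, 1) (by decide)
  have n7 := four r h0 (fun K hK => (h3 K hK).1) (0, 0, 0, 1) (1, 0, 0, 1) (0, 1, 0, 1) (0, 0, 1, 1) (by decide)
    (1, 0, 0, 0) (0, 1, 0, 0) (0, 0, 1, 0) (1, 1, 0, 0) (1, 0, 1, 0) (0, 1, 1, 0)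
    (1, 1, 0, 1) (1, 0, 1, 1) (0, 1, 1, 1) (1, 1, 1, 1) (1, 1, 1, 0) (by decide)
  have n8 := four r h0 (fun K hK => (h3 K hK).1) (1, 0, 0, 0) (1, 1, 0, 0) (1, 0, 1, 0) (0, 0, 0, 1) (by decide)
    (0, 1, 0, 0) (0, 0, 1, 0) (1, 0, 0, 1) (0, 1, 1, 0) (1, 1, 0, 1) (1, 0, 1, 1)
    (1, 1, 1, 0) (0, 1, 0, 1) (0, 0, 1, 1) (0, 1, 1, 1) (1, 1, 1, 1) (by decide)
  have n9 := four r h0 (fun K hK => (h3 K hK).1) (0, 1, 0, 0) (1, 1, 0, 0) (0, 1, 1, 0) (0, 0, 0, 1) (by decide)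
    (1, 0, 0, 0) (0, 0, 1, 0) (0, 1, 0, 1) (1, 0, 1, 0) (1, 1, 0, 1) (0, 1, 1, 1)
    (1, 1, 1, 0) (1, 0, 0, 1) (0, 0, 1, 1) (1, 0, 1, 1) (1, 1, 1, 1) (by decide)
  have n10 := four r h0 (fun K hK => (h3 K hK).1) (1, 0, 0, 0) (0, 1, 0, 0) (1, 0, 1, 0) (0, 0, 0, 1) (by decide)
    (1, 1, 0, 0) (0, 0, 1, 0) (1, 0, 0, 1) (1, 1, 1, 0) (0, 1, 0, 1) (1, 0, 1, 1)
    (0, 1, 1, 0) (1, 1, 0, 1) (0, 0, 1, 1) (1, 1, 1, 1) (0, 1, 1, 1) (by decide)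
  have n11 := four r h0 (fun K hK => (h3 K hK).1) (0, 0, 1, 0) (1, 0, 1, 0) (0, 1, 1, 0) (0, 0, 0, 1) (by decide)
    (1, 0, 0, 0) (0, 1, 0, 0) (0, 0, 1, 1) (1, 1, 0, 0) (1, 0, 1, 1) (0, 1, 1, 1)
    (1, 1, 1, 0) (1, 0, 0, 1) (0, 1, 0, 1) (1, 1, 0, 1) (1, 1, 1, 1) (by decide)
  have n12 := four r h0 (fun K hK => (h3 K hK).1) (1, 0, 0, 0) (1, 1, 0, 0) (0, 0, 1, 0) (0, 0, 0, 1) (by decide)
    (0, 1, 0, 0) (1, 0, 1, 0) (1, 0, 0, 1) (1, 1, 1, 0) (1, 1, 0, 1) (0, 0, 1, 1)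
    (0, 1, 1, 0) (0, 1, 0, 1) (1, 0, 1, 1) (1, 1, 1, 1) (0, 1, 1, 1) (by decide)
  have n13 := four r h0 (fun K hK => (h3 K hK).1) (0, 1, 0, 0) (1, 1, 0, 0) (0, 0, 1, 0) (0, 0, 0, 1) (by decide)
    (1, 0, 0, 0) (0, 1, 1, 0) (0, 1, 0, 1) (1, 1, 1, 0) (1, 1, 0, 1) (0, 0, 1, 1)
    (1, 0, 1, 0) (1, 0, 0, 1) (0, 1, 1, 1) (1, 1, 1, 1) (1, 0, 1, 1) (by decide)
  have n14 := four r h0 (fun K hK => (h3 K hK).1) (1, 0, 0, 0) (0, 1, 0, 0) (0, 0, 1, 0) (0, 0, 0, 1) (by decide)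
    (1, 1, 0, 0) (1, 0, 1, 0) (1, 0, 0, 1) (0, 1, 1, 0) (0, 1, 0, 1) (0, 0, 1, 1)
    (1, 1, 1, 0) (1, 1, 0, 1) (1, 0, 1, 1) (0, 1, 1, 1) (1, 1, 1, 1) (by decide)
  have e0 : r (0, 1, 0, 0) = r (1, 0, 0, 0) + r (1, 1, 0, 0) := h2 (1, 0, 0, 0) (1, 1, 0, 0) (by decide)
  have e1 : r (0, 0, 1, 1) = r (1, 0, 1, 0) + r (1, 0, 0, 1) := h2 (1, 0, 1, 0) (1, 0, 0, 1) (by decide)
  have e2 : r (0, 1, 1, 1) = r (0, 0, 1, 0) + r (0, 1, 0, 1) := h2 (0, 0, 1, 0) (0, 1, 0, 1) (by decide)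
  have e3 : r (1, 0, 1, 1) = r (0, 1, 1, 0) + r (1, 1, 0, 1) := h2 (0, 1, 1, 0) (1, 1, 0, 1) (by decide)
  have e4 : r (1, 1, 1, 1) = r (1, 1, 1, 0) + r (0, 0, 0, 1) := h2 (1, 1, 1, 0) (0, 0, 0, 1) (by decide)
  have : r (1, 0, 0, 0) ≠ 0 := fun h => absurd ((h1 _).1 h) (by decide)
  apply this
  linarith [Nat.zero_le (r (1, 0, 0, 0))]

end Pool.Agent.Results.MP_efcf90_co.NoRank
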